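import Pool.Agent.H281.Hel.Family

/-!
# The generalized Heller constant exceeds `f(Δ, m)` for all `Δ = 4 r ≤ 4 (m - 2)`

For all `r ≥ 1` and `m ≥ 2` there is an integer matrix with `m` rows, with exactly
`f(4 r, m) + 2 (m - 1 - r)` pairwise distinct columns and with largest `m × m` minor `4 r`.
Hence `h(Δ, m) > f(Δ, m)` for every `m ≥ 3` and every multiple `Δ` of `4` with `4 ≤ Δ ≤ 4 (m - 2)`,
and every threshold `Δ(m)` from which on `h(Δ, m) = f(Δ, m)` satisfies `Δ(m) > 4 (m - 2)`.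
-/

set_option autoImplicit false

namespace Pool.Agent.Results.MP_f22417_co.ThresholdLinear

open Pool.Agent.H281.Hel

/-- There is an integer matrix with `m` rows and `n` pairwise distinct columns whose largest
absolute value of an `m × m` minor equals `Δ`.  (A selection `s` of columns with a repetition has
determinant `0`.)  The generalized Heller constant `h(Δ, m)` is the largest such `n`. -/
def HasMatrix (Δ m n : ℕ) : Prop :=
  ∃ A : Matrix (Fin m) (Fin n) ℤ, Function.Injective (fun (j : Fin n) (i : Fin m) => A i j) ∧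
    (∀ s : Fin m → Fin n, |(A.submatrix id s).det| ≤ (Δ : ℤ)) ∧
    ∃ s : Fin m → Fin n, |(A.submatrix id s).det| = (Δ : ℤ)

/-- `h(Δ, m) = n`. -/
def IsHeller (Δ m n : ℕ) : Prop := IsGreatest {n : ℕ | HasMatrix Δ m n} n

/-- `f(Δ, m) = m² + m + 1 + 2 m (Δ - 1)`. -/
def f (Δ m : ℕ) : ℤ := (m : ℤ) ^ 2 + m + 1 + 2 * m * ((Δ : ℤ) - 1)

lemma exists_matrix (r k : ℕ) : ∃ n : ℕ, HasMatrix (4 * r) (k + 2) n ∧
    (n : ℤ) = f (4 * r) (k + 2) + 2 * ((k + 2 : ℤ) - 1 - r) := by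
  obtain ⟨-, -, hdet, c, hc, hcd⟩ := main r k
  refine ⟨(SS r k).card, ?_, ?_⟩
  · refine ⟨fun i j => ((SS r k).equivFin.symm j : Fin (k + 2) → ℤ) i, ?_, ?_, ?_⟩
    · intro a b h
      exact (SS r k).equivFin.symm.injective (Subtype.ext h)
    · intro s
      have h := hdet (fun i => ((SS r k).equivFin.symm (s i) : Fin (k + 2) → ℤ))
        (fun i => ((SS r k).equivFin.symm (s i)).2)
      rw [← Matrix.det_transpose] at h
      push_cast
      exact h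
    · refine ⟨fun i => (SS r k).equivFin ⟨c i, hc i⟩, ?_⟩
      rw [← Matrix.det_transpose] at hcd
      push_cast
      rw [← hcd]
      congr 2
      ext i j
      simp [Matrix.submatrix, Matrix.transpose]
  · rw [card_SS]
    unfold f
    push_cast
    ring

theorem result :
    (∀ r m : ℕ, 1 ≤ r → 2 ≤ m → ∃ n : ℕ, HasMatrix (4 * r) m n ∧
      (n : ℤ) = f (4 * r) m + 2 * ((m : ℤ) - 1 - r)) ∧
    (∀ m Δ n : ℕ, 4 ≤ Δ → 4 ∣ Δ → Δ ≤ 4 * (m - 2) → IsHeller Δ m n → f Δ m < n) ∧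
    (∀ m T : ℕ, 3 ≤ m → (∀ Δ : ℕ, T ≤ Δ → ∃ n : ℕ, IsHeller Δ m n ∧ (n : ℤ) = f Δ m) →
      4 * (m - 2) < T) := by
  have h1 : ∀ r m : ℕ, 1 ≤ r → 2 ≤ m → ∃ n : ℕ, HasMatrix (4 * r) m n ∧
      (n : ℤ) = f (4 * r) m + 2 * ((m : ℤ) - 1 - r) := by
    intro r m _ hm
    obtain ⟨k, rfl⟩ := Nat.exists_eq_add_of_le' hm
    exact_mod_cast exists_matrix r k
  have h2 : ∀ m Δ n : ℕ, 4 ≤ Δ → 4 ∣ Δ → Δ ≤ 4 * (m - 2) → IsHeller Δ m n → f Δ m < n := by
    rintro m Δ n h4 ⟨r, rfl⟩ hΔ hn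
    obtain ⟨n', hn', e⟩ := h1 r m (by omega) (by omega)
    have hle : (n' : ℤ) ≤ n := by exact_mod_cast hn.2 hn'
    have : (r : ℤ) + 2 ≤ m := by omega
    linarith
  refine ⟨h1, h2, ?_⟩
  intro m T hm h
  by_contra hT
  obtain ⟨n, hn, e⟩ := h (4 * (m - 2)) (by omega)
  have := h2 m (4 * (m - 2)) n (by omega) (Dvd.intro _ rfl) le_rfl hn
  omega

end Pool.Agent.Results.MP_f22417_co.ThresholdLinear
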