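import Pool.Agent.H281.Hel.Fin

/-!
# Matrices with a unimodular direction have at most `f(Δ, m)` columns

Among all integer `m × n` matrices with distinct columns and largest minor `Δ` for which some
non-zero vector `v` has the property that all determinants of `v` with `m - 1` columns are `0` or
`± D`, the largest number of columns is exactly `f(Δ, m) = m² + m + 1 + 2 m (Δ - 1)`.  This applies
whenever `conv(± columns)` contains `t w` with `w ≠ 0` a lattice vector and `t > Δ / 2`.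
-/

set_option autoImplicit false

namespace Pool.Agent.Results.MP_f22417_co.UnimodularDirection

open Pool.Agent.H281.Hel

/-- the columns of `A` are pairwise distinct -/
def DistinctCols {m n : ℕ} (A : Matrix (Fin m) (Fin n) ℤ) : Prop :=
  Function.Injective (fun (j : Fin n) (i : Fin m) => A i j)

/-- The largest absolute value of an `m × m` minor of `A` is `Δ`.  (A selection `s` of columns with
a repetition has determinant `0`.) -/
def MaxMinor {m n : ℕ} (A : Matrix (Fin m) (Fin n) ℤ) (Δ : ℕ) : Prop :=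
  (∀ s : Fin m → Fin n, |(A.submatrix id s).det| ≤ (Δ : ℤ)) ∧
    ∃ s : Fin m → Fin n, |(A.submatrix id s).det| = (Δ : ℤ)

/-- `h(Δ, m) = n`. -/
def IsHeller (Δ m n : ℕ) : Prop :=
  IsGreatest {n : ℕ | ∃ A : Matrix (Fin m) (Fin n) ℤ, DistinctCols A ∧ MaxMinor A Δ} n

/-- `v ≠ 0` is a unimodular direction of `A`: there is `D` such that replacing any of the columns
of any `m × m` selection of columns of `A` by `v` gives the determinant `0`, `D` or `-D`. -/
def UnimodularDir {m n : ℕ} (A : Matrix (Fin m) (Fin n) ℤ) (v : Fin m → ℤ) : Prop :=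
  v ≠ 0 ∧ ∃ D : ℤ, ∀ (s : Fin m → Fin n) (i : Fin m),
    ((A.submatrix id s).updateCol i v).det = 0 ∨ ((A.submatrix id s).updateCol i v).det = D ∨
    ((A.submatrix id s).updateCol i v).det = -D

/-- the convex hull of the columns of `A` and their negatives -/
def Body {m n : ℕ} (A : Matrix (Fin m) (Fin n) ℤ) : Set (Fin m → ℝ) :=
  convexHull ℝ {x : Fin m → ℝ | ∃ j : Fin n,
    x = (fun i => (A i j : ℝ)) ∨ x = fun i => -(A i j : ℝ)}

/-- `f(Δ, m) = m² + m + 1 + 2 m (Δ - 1)` for `Δ ≥ 1`. -/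
def f (Δ m : ℕ) : ℕ := m ^ 2 + m + 1 + 2 * m * (Δ - 1)

lemma f_eq (Δ k : ℕ) (hΔ : 1 ≤ Δ) : f Δ (k + 1) = (2 * Δ + 1) + k * (2 * Δ + (k + 1)) := by
  obtain ⟨d, rfl⟩ := Nat.exists_eq_add_of_le' hΔ
  unfold f
  rw [Nat.add_sub_cancel]
  ring

lemma upper {m n Δ : ℕ} (hΔ : 1 ≤ Δ) (A : Matrix (Fin m) (Fin n) ℤ) (hA : DistinctCols A)
    (hM : MaxMinor A Δ) (hv : ∃ v, UnimodularDir A v) : n ≤ f Δ m := by
  obtain ⟨v, hv0, D, hD⟩ := hv
  cases m with
  | zero => exact absurd (Subsingleton.elim v 0) hv0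
  | succ k =>
    rw [f_eq Δ k hΔ]
    refine bound hA hM.1 ?_ hv0 hD
    obtain ⟨s, hs⟩ := hM.2
    refine ⟨s, fun h => ?_⟩
    rw [h, abs_zero] at hs
    omega

lemma long {m n Δ : ℕ} (A : Matrix (Fin m) (Fin n) ℤ) (hM : MaxMinor A Δ) (w : Fin m → ℤ)
    (t : ℝ) (hw : w ≠ 0) (ht : (Δ : ℝ) < 2 * t) (h : (fun i => t * (w i : ℝ)) ∈ Body A) :
    UnimodularDir A w :=
  ⟨hw, 1, fun s i => dir_of_long hM.1 ht h s i⟩

lemma lower {m Δ : ℕ} (hm : 1 ≤ m) (hΔ : 1 ≤ Δ) :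
    ∃ A : Matrix (Fin m) (Fin (f Δ m)) ℤ, DistinctCols A ∧ MaxMinor A Δ ∧
      ∃ v, UnimodularDir A v := by
  obtain ⟨k, rfl⟩ := Nat.exists_eq_add_of_le' hm
  obtain ⟨-, -, hdet, ⟨c, hc, hcd⟩, hlast⟩ := main1 Δ k
  have hcard : (S1 Δ k).card = f Δ (k + 1) := by rw [card_S1, f_eq Δ k hΔ]
  let σ : (S1 Δ k : Finset _) ≃ Fin (f Δ (k + 1)) := (S1 Δ k).equivFinOfCardEq hcard
  let A : Matrix (Fin (k + 1)) (Fin (f Δ (k + 1))) ℤ :=
    fun i j => (σ.symm j : Fin (k + 1) → ℤ) i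
  have hM : MaxMinor A Δ := by
    refine ⟨fun s => ?_, ?_⟩
    · have h := hdet (fun i => (σ.symm (s i) : Fin (k + 1) → ℤ)) (fun i => (σ.symm (s i)).2)
      rw [← Matrix.det_transpose] at h
      exact h
    · refine ⟨fun i => σ ⟨c i, hc i⟩, ?_⟩
      rw [← Matrix.det_transpose] at hcd
      rw [← hcd]
      congr 2
      ext i j
      simp [A, Matrix.submatrix, Matrix.transpose]
  refine ⟨A, ?_, hM, (fun i => if i = Fin.last k then 1 else 0), ?_⟩
  · intro a b h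
    exact σ.symm.injective (Subtype.ext h)
  · refine long A hM _ Δ ?_ ?_ ?_
    · intro h
      have := congrFun h (Fin.last k)
      simp at this
    · have : (1 : ℝ) ≤ Δ := by exact_mod_cast hΔ
      linarith
    · refine subset_convexHull ℝ _ ⟨σ ⟨_, hlast⟩, Or.inl ?_⟩
      ext i
      show (Δ : ℝ) * (((if i = Fin.last k then 1 else 0 : ℤ)) : ℝ) =
        (((σ.symm (σ ⟨_, hlast⟩) : Fin (k + 1) → ℤ) i : ℤ) : ℝ)
      rw [Equiv.symm_apply_apply]
      show _ = (((if i = Fin.last k then (Δ : ℤ) else 0) : ℤ) : ℝ)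
      split_ifs <;> simp

theorem result :
    (∀ m Δ : ℕ, 1 ≤ m → 1 ≤ Δ →
      IsGreatest {n : ℕ | ∃ A : Matrix (Fin m) (Fin n) ℤ, DistinctCols A ∧ MaxMinor A Δ ∧
        ∃ v, UnimodularDir A v} (f Δ m)) ∧
    (∀ m n Δ : ℕ, 1 ≤ Δ → ∀ A : Matrix (Fin m) (Fin n) ℤ, DistinctCols A → MaxMinor A Δ →
      ∀ (w : Fin m → ℤ) (t : ℝ), w ≠ 0 → (Δ : ℝ) < 2 * t → (fun i => t * (w i : ℝ)) ∈ Body A →
        UnimodularDir A w ∧ n ≤ f Δ m) ∧
    (∀ m n Δ : ℕ, 1 ≤ Δ → IsHeller Δ m n → n ≠ f Δ m →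
      ∀ A : Matrix (Fin m) (Fin n) ℤ, DistinctCols A → MaxMinor A Δ →
        (¬ ∃ v, UnimodularDir A v) ∧
        ∀ (w : Fin m → ℤ) (t : ℝ), w ≠ 0 → (fun i => t * (w i : ℝ)) ∈ Body A → 2 * t ≤ Δ) := by
  refine ⟨?_, ?_, ?_⟩
  · intro m Δ hm hΔ
    refine ⟨lower hm hΔ, ?_⟩
    rintro n ⟨A, hA, hM, hv⟩
    exact upper hΔ A hA hM hv
  · intro m n Δ hΔ A hA hM w t hw ht h
    have h1 := long A hM w t hw ht h
    exact ⟨h1, upper hΔ A hA hM ⟨w, h1⟩⟩
  · intro m n Δ hΔ hn hne A hA hM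
    have key : ¬ ∃ v, UnimodularDir A v := by
      intro hv
      have h1 := upper hΔ A hA hM hv
      obtain ⟨v, hv0, -⟩ := hv
      have hm : 1 ≤ m := by
        rcases Nat.eq_zero_or_pos m with rfl | h
        · exact absurd (Subsingleton.elim v 0) hv0
        · exact h
      obtain ⟨B, hB, hBM, -⟩ := lower hm hΔ
      exact hne (le_antisymm h1 (hn.2 ⟨B, hB, hBM⟩))
    refine ⟨key, ?_⟩
    intro w t hw h
    by_contra hcon
    push Not at hcon
    exact key ⟨w, long A hM w t hw hcon h⟩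

end Pool.Agent.Results.MP_f22417_co.UnimodularDirection
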